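import Pool.Agent.Q215.TD.Stm

/-! Project TD of helper215 (MP_9aeaaa_lc): jobs FSM and FCX. -/

set_option autoImplicit false

namespace Pool.Agent.Q65.TD

open Filter Topology
open scoped ContDiff
open Pool.Agent.Q215.TD

theorem rad_pos (k : ℕ) : 0 < rad k := by
  unfold rad
  positivity

theorem dtw_smooth (hT : S_TWS) (n : ℕ) (ρ a : ℝ) (hρ : 0 < ρ) :
    ContDiff ℝ ∞ (dtw ρ a : W n → W n) :=
  (hT n ρ hρ).comp (contDiff_const.prodMk contDiff_id)

theorem term_smooth (hT : S_TWS) (n : ℕ) (ρ a : ℝ) (hρ : 0 < ρ) (c : W n) :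
    ContDiff ℝ ∞ (fun w : W n => dtw ρ a (w - c)) :=
  (dtw_smooth hT n ρ a hρ).comp (contDiff_id.sub contDiff_const)

theorem t_FSM : S_FSM := by
  intro hT n N hN e he x
  have h1 : ContDiff ℝ ∞ (fun w : W n => ∑' k, dtw (rad k) (e / N k) (w - cen x k)) := by
    refine contDiff_tsum_of_eventually (𝕜 := ℝ) (N := ⊤) (v := fun _ k => (1 / 2 : ℝ) ^ k)
      (fun k => term_smooth hT n _ _ (rad_pos k) _) (fun _ _ => summable_geometric_two) ?_
    intro m _
    rw [Nat.cofinite_eq_atTop]
    filter_upwards [eventually_ge_atTop m] with k hk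
    intro w
    rw [iteratedFDeriv_comp_sub m (cen x k) w]
    exact hN.bd k m hk e he _
  exact contDiff_id.add h1

theorem cen_cont (n : ℕ) (k : ℕ) : Continuous (fun x : ℕ → ℝ => (cen x k : W n)) := by
  have h1 : Continuous (fun x : ℕ → ℝ => ht x k) := by
    unfold ht
    by_cases h : k % 2 = 0
    · simp only [h, if_true]
      unfold Pool.Agent.Q215.TD.sq
      exact continuous_const.max (continuous_const.min (continuous_apply _))
    · simp only [h, if_false]
      exact continuous_const
  unfold cen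
  refine Continuous.prodMk ?_ continuous_const
  have h2 : (fun x : ℕ → ℝ => (⟨rp k, ht x k⟩ : ℂ)) =
      fun x : ℕ → ℝ => (rp k : ℂ) + (ht x k : ℂ) * Complex.I := by
    funext x
    exact Complex.mk_eq_add_mul_I _ _
  rw [h2]
  exact continuous_const.add ((Complex.continuous_ofReal.comp h1).mul continuous_const)

theorem t_FCX : S_FCX := by
  intro hT n N hN e he w
  unfold FF
  refine continuous_const.add ?_
  refine continuous_tsum (u := fun k => (1 / 2 : ℝ) ^ k) (fun k => ?_) summable_geometric_two ?_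
  · exact (dtw_smooth hT n _ _ (rad_pos k)).continuous.comp (continuous_const.sub (cen_cont n k))
  · intro k x
    have h := hN.bd k 0 (Nat.zero_le _) e he (w - cen x k)
    rwa [norm_iteratedFDeriv_zero] at h

end Pool.Agent.Q65.TD

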